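import Pool.Agent.H98.NS.Frame
import Pool.Agent.H81.NS.Brou

/-!
The cube of frames and the Brouwer argument (problem MP_90715c_gt, NoSeparation, section 8).
-/

open Matrix Set Filter Topology MeasureTheory

namespace Pool.Agent.H81.NS.Cu

open Pool.Agent.H90.WC Pool.Agent.H81.TG Pool.Agent.H81.NS.B

/-- The projection of the line onto the unit interval. -/
noncomputable def cl (x : ℝ) : ℝ := max 0 (min x 1)

lemma cl_nonneg (x : ℝ) : 0 ≤ cl x := le_max_left _ _

lemma cl_le_one (x : ℝ) : cl x ≤ 1 := max_le zero_le_one (min_le_right _ _)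

lemma cl_of {x : ℝ} (h0 : 0 ≤ x) (h1 : x ≤ 1) : cl x = x := by
  unfold cl
  rw [min_eq_left h1, max_eq_right h0]

lemma continuous_cl : Continuous cl := continuous_const.max (continuous_id.min continuous_const)

/-- The point `η_τ(s)`. -/
noncomputable def qp (a b : ℂ) (τ s : ℝ) : ℂ :=
  a + (b - a) * ((s : ℂ) + ((τ * min s (1 - s) : ℝ) : ℂ) * Complex.I)

/-- The radius at the height `t`. -/
noncomputable def rd (κ : ℝ) (t : ℝ) : ℝ := 1 - (1 - κ) * t

/-- The centre. -/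
noncomputable def cn (a b : ℂ) (κ : ℝ) (l : Fin 3 → ℝ) : ℂ :=
  ((1 - rd κ (cl (l 2)) : ℝ) : ℂ) * qp a b (cl (l 0)) (cl (l 1))

/-- The cube of frames. -/
noncomputable def kf (a b : ℂ) (κ : ℝ) (l : Fin 3 → ℝ) : G :=
  tf (cn a b κ l) (rd κ (cl (l 2)))

lemma rd_mem {κ : ℝ} (h0 : 0 < κ) (h1 : κ ≤ 1) {t : ℝ} (ht0 : 0 ≤ t) (ht1 : t ≤ 1) :
    κ ≤ rd κ t ∧ rd κ t ≤ 1 := by
  unfold rd
  constructor <;> nlinarith

lemma qp_norm_le (a b : ℂ) {τ s : ℝ} (hτ0 : 0 ≤ τ) (hτ1 : τ ≤ 1) (hs0 : 0 ≤ s) (hs1 : s ≤ 1) :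
    ‖qp a b τ s‖ ≤ ‖a‖ + 2 * ‖b - a‖ := by
  unfold qp
  refine (norm_add_le _ _).trans ?_
  rw [norm_mul]
  have h1 : ‖(s : ℂ) + ((τ * min s (1 - s) : ℝ) : ℂ) * Complex.I‖ ≤ 2 := by
    refine (norm_add_le _ _).trans ?_
    rw [norm_mul, Complex.norm_I, mul_one, Complex.norm_real, Complex.norm_real,
      Real.norm_of_nonneg hs0]
    have h2 : 0 ≤ min s (1 - s) := le_min hs0 (by linarith)
    have h3 : min s (1 - s) ≤ 1 := (min_le_left _ _).trans hs1
    rw [Real.norm_of_nonneg (mul_nonneg hτ0 h2)]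
    nlinarith
  have := mul_le_mul_of_nonneg_left h1 (norm_nonneg (b - a))
  linarith

lemma qp_zero_right (a b : ℂ) {τ : ℝ} : qp a b τ 0 = a := by
  unfold qp
  have : min (0 : ℝ) (1 - 0) = 0 := by norm_num
  rw [this]
  simp

lemma qp_one_right (a b : ℂ) {τ : ℝ} : qp a b τ 1 = b := by
  unfold qp
  have : min (1 : ℝ) (1 - 1) = 0 := by norm_num
  rw [this]
  simp

/-- Points of the two arcs are separated in terms of the distance to the end points. -/
lemma qp_sep (a b : ℂ) {s s' : ℝ} (hs0 : 0 ≤ s) (hs1 : s ≤ 1) (hs0' : 0 ≤ s') (hs1' : s' ≤ 1) :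
    ‖qp a b 0 s - a‖ ≤ 2 * ‖qp a b 0 s - qp a b 1 s'‖ ∨
    ‖qp a b 0 s - b‖ ≤ 2 * ‖qp a b 0 s - qp a b 1 s'‖ := by
  have e1 : qp a b 0 s - a = (b - a) * (s : ℂ) := by
    unfold qp
    simp
  have e2 : qp a b 0 s - b = (b - a) * ((s - 1 : ℝ) : ℂ) := by
    unfold qp
    push_cast
    ring
  have e3 : qp a b 0 s - qp a b 1 s' =
      (b - a) * (((s - s' : ℝ) : ℂ) + ((-(min s' (1 - s')) : ℝ) : ℂ) * Complex.I) := by
    unfold qp
    push_cast
    ring
  rw [e1, e2, e3, norm_mul, norm_mul, norm_mul, Complex.norm_real, Complex.norm_real]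
  set w : ℂ := ((s - s' : ℝ) : ℂ) + ((-(min s' (1 - s')) : ℝ) : ℂ) * Complex.I with hw
  have hre : w.re = s - s' := by simp [hw]
  have him : w.im = -(min s' (1 - s')) := by simp [hw]
  have h1 : |s - s'| ≤ ‖w‖ := by
    rw [← hre]
    exact Complex.abs_re_le_norm w
  have h2 : min s' (1 - s') ≤ ‖w‖ := by
    have := Complex.abs_im_le_norm w
    rw [him, abs_neg] at this
    exact (le_abs_self _).trans this
  have h3 := norm_nonneg (b - a)
  rw [Real.norm_of_nonneg hs0, Real.norm_of_nonpos (by linarith : s - 1 ≤ 0)]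
  rw [abs_le] at h1
  rcases le_total s' (1 - s') with h4 | h4
  · left
    rw [min_eq_left h4] at h2
    have : s ≤ 2 * ‖w‖ := by linarith
    nlinarith
  · right
    rw [min_eq_right h4] at h2
    have : -(s - 1) ≤ 2 * ‖w‖ := by linarith
    nlinarith

lemma continuous_kf (a b : ℂ) {κ : ℝ} (h0 : 0 < κ) (h1 : κ ≤ 1) : Continuous (kf a b κ) := by
  have c0 : Continuous fun l : Fin 3 → ℝ => cl (l 0) := continuous_cl.comp (continuous_apply 0)
  have c1 : Continuous fun l : Fin 3 → ℝ => cl (l 1) := continuous_cl.comp (continuous_apply 1)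
  have c2 : Continuous fun l : Fin 3 → ℝ => cl (l 2) := continuous_cl.comp (continuous_apply 2)
  have cr : Continuous fun l : Fin 3 → ℝ => rd κ (cl (l 2)) := by
    unfold rd
    exact continuous_const.sub (continuous_const.mul c2)
  have cq : Continuous fun l : Fin 3 → ℝ => qp a b (cl (l 0)) (cl (l 1)) := by
    unfold qp
    refine continuous_const.add (continuous_const.mul ((Complex.continuous_ofReal.comp c1).add
      ((Complex.continuous_ofReal.comp (c0.mul (c1.min (continuous_const.sub c1)))).mul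
        continuous_const)))
  have cc : Continuous fun l : Fin 3 → ℝ => cn a b κ l := by
    unfold cn
    exact (Complex.continuous_ofReal.comp (continuous_const.sub cr)).mul cq
  exact continuous_tf cc cr fun l => h0.trans_le (rd_mem h0 h1 (cl_nonneg _) (cl_le_one _)).1

/-- Section 8. -/
theorem cube_row (T : Tool) {Γ : Subgroup G} {U : Set (OnePoint ℂ)}
    {M : Set (Set (OnePoint ℂ))} (hM : MinF Γ U M) (hN : ∀ X ∈ M, ∀ Y ∈ M, Nst X Y)
    {A : ℕ → Set (OnePoint ℂ)} {L : Set (OnePoint ℂ)} (hL : L ∈ M) (hA : ∀ n, A n ∈ M)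
    (hm : ∀ n, Sub (A n) (A (n + 1))) (hAL : ∀ n, Sub (A n) L)
    (hlim : Tendsto (fun n => lam 1 (L \ A n)) atTop (𝓝 0))
    (hsep : ∀ n, ∃ E F, IsClosed E ∧ IsClosed F ∧ Disjoint E F ∧ Sub (A n) E ∧ Sub Lᶜ F)
    (hNM : ∀ δ > (0 : ℝ), ∃ N, ∀ n ≥ N, ∀ k, ∀ X ∈ M, Sub (A n) X → Sub X L →
      δ ≤ lam k (A n) → δ ≤ lam k (X \ A n) → δ ≤ lam k (L \ X) → δ ≤ lam k Lᶜ → False)
    (hG : ∀ δ > (0 : ℝ), ∃ Q : Set G, IsCompact Q ∧ ∀ X ∈ M, ∀ Y ∈ M, Sub X Y →
      (∀ Z ∈ M, Sub X Z → Sub Z Y → Sub Z X ∨ Sub Y Z) → ∀ k k' : G,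
      δ ≤ lam k X → δ ≤ lam k (Y \ X) → δ ≤ lam k Yᶜ →
      δ ≤ lam k' X → δ ≤ lam k' (Y \ X) → δ ≤ lam k' Yᶜ → k⁻¹ * k' ∈ Q) : False := by
  have hmL := (hM.leaf L hL).meas
  have hmA := fun n => (hM.leaf (A n) (hA n)).meas
  have hA0 : ∀ n, Sub (A 0) (A n) := by
    intro n
    induction n with
    | zero => exact sub_refl _
    | succ n ih => exact sub_trans T ih (hm n)
  -- the density points
  obtain ⟨a, ha⟩ := T.dens (A 0) (hmA 0) (hM.leaf (A 0) (hA 0)).pos
  obtain ⟨b, hb⟩ := T.dens Lᶜ hmL.compl (hM.leaf L hL).cpos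
  -- the constants
  obtain ⟨Q, hQ, hQ2⟩ := hG (1 / 8) (by norm_num)
  obtain ⟨n₀, hn₀⟩ := subset_ball hQ
  set B : ℝ := ‖a‖ + 2 * ‖b - a‖ with hB
  have hB0 : 0 ≤ B := by positivity
  have hbB : ‖b‖ ≤ B := by
    have h1 : ‖b‖ ≤ ‖a‖ + ‖b - a‖ := by
      have := norm_add_le a (b - a)
      rwa [add_sub_cancel] at this
    have := norm_nonneg (b - a)
    rw [hB]
    linarith
  have haB : ‖a‖ ≤ B := by
    have := norm_nonneg (b - a)
    rw [hB]
    linarith
  set C₀ : ℝ := (n₀ : ℝ) ^ 2 with hC₀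
  have hC₀0 : 0 ≤ C₀ := by positivity
  set C : ℝ := B + 2 * (C₀ + B + B * C₀) + 1 with hC
  have hC0 : 0 < C := by positivity
  have hBC : B ≤ C := by
    rw [hC]
    have : 0 ≤ B * C₀ := by positivity
    linarith
  obtain ⟨ra, hra0, hra⟩ := ha C (1 / 8) hC0 (by norm_num)
  obtain ⟨rb, hrb0, hrb⟩ := hb C (1 / 8) hC0 (by norm_num)
  set r₁ : ℝ := min (min ra rb) 1 with hr₁
  have hr₁0 : 0 < r₁ := lt_min (lt_min hra0 hrb0) one_pos
  have hr₁1 : r₁ ≤ 1 := min_le_right _ _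
  have hr₁a : r₁ ≤ ra := (min_le_left _ _).trans (min_le_left _ _)
  have hr₁b : r₁ ≤ rb := (min_le_left _ _).trans (min_le_right _ _)
  -- frames which are not small
  obtain ⟨n₁, hn₁⟩ := tf_mem_ball (B := B) hr₁0
  obtain ⟨c, hc1, hc⟩ := T.har (ball n₁) (isCompact_ball n₁)
  have hc0 : 0 < c := by linarith
  obtain ⟨N, hN2⟩ := hNM (1 / 64) (by norm_num)
  have hev : ∀ᶠ n in atTop, lam 1 (L \ A n) < 1 / 2 / c :=
    hlim.eventually (gt_mem_nhds (by positivity))
  obtain ⟨n, hnN, hn⟩ : ∃ n, N ≤ n ∧ lam 1 (L \ A n) < 1 / 2 / c := by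
    obtain ⟨n, h1, h2⟩ := ((eventually_ge_atTop N).and hev).exists
    exact ⟨n, h1, h2⟩
  have hbig : ∀ z : ℂ, ‖z‖ ≤ B → ∀ r : ℝ, r₁ ≤ r → r ≤ 1 → lam (tf z r) (L \ A n) < 1 / 2 := by
    intro z hz r h1 h2
    have h3 := hc 1 _ (hn₁ z hz r h1 h2) (L \ A n) (hmL.diff (hmA n))
    rw [one_mul] at h3
    rw [lt_div_iff₀ hc0] at hn
    linarith
  -- frames near the density points
  have hAn : ∀ z : ℂ, ∀ r : ℝ, 0 < r → r < r₁ → ‖z - a‖ ≤ C * r →
      7 / 8 ≤ lam (tf z r) (A n) := by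
    intro z r h1 h2 h3
    have h4 := hra z r h1 (h2.trans_le hr₁a) h3
    rw [lam_compl T _ (hmA 0)] at h4
    have h5 := lam_le_of_sub T (hmA 0) (hmA n) (hA0 n) (tf z r)
    linarith
  have hLn : ∀ z : ℂ, ∀ r : ℝ, 0 < r → r < r₁ → ‖z - b‖ ≤ C * r →
      7 / 8 ≤ lam (tf z r) Lᶜ := by
    intro z r h1 h2 h3
    have h4 := hrb z r h1 (h2.trans_le hr₁b) h3
    rw [compl_compl] at h4
    rw [lam_compl T _ hmL]
    linarith
  have hsum := fun k => sum_eq T (hmA n) hmL (hAL n) k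
  -- the smallest frames
  obtain ⟨E, F, hE, hF, hEF, hAE, hLF⟩ := hsep n
  obtain ⟨κ, hκ0, hκ1, hκ⟩ := exists_small T (hmA n) hmL hE hF hEF hAE hLF B hr₁0
  have hκ2 : κ ≤ 1 := hκ1.le.trans hr₁1
  set k : (Fin 3 → ℝ) → G := kf a b κ with hk
  have hkc : Continuous k := continuous_kf a b hκ0 hκ2
  have hrd : ∀ l : Fin 3 → ℝ, κ ≤ rd κ (cl (l 2)) ∧ rd κ (cl (l 2)) ≤ 1 := fun l =>
    rd_mem hκ0 hκ2 (cl_nonneg _) (cl_le_one _)
  have hqB : ∀ l : Fin 3 → ℝ, ‖qp a b (cl (l 0)) (cl (l 1))‖ ≤ B := fun l =>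
    qp_norm_le a b (cl_nonneg _) (cl_le_one _) (cl_nonneg _) (cl_le_one _)
  have hcn : ∀ l : Fin 3 → ℝ, ‖cn a b κ l‖ ≤ B := by
    intro l
    unfold cn
    rw [norm_mul, Complex.norm_real, Real.norm_of_nonneg (by have := (hrd l).2; linarith)]
    have h1 := hqB l
    have h2 := hrd l
    have h3 := norm_nonneg (qp a b (cl (l 0)) (cl (l 1)))
    have h4 := mul_le_mul_of_nonneg_right (by linarith : 1 - rd κ (cl (l 2)) ≤ 1) h3
    rw [one_mul] at h4
    exact h4.trans h1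
  have hcq : ∀ l : Fin 3 → ℝ, ‖cn a b κ l - qp a b (cl (l 0)) (cl (l 1))‖ ≤
      B * rd κ (cl (l 2)) := by
    intro l
    have e : cn a b κ l - qp a b (cl (l 0)) (cl (l 1)) =
        ((-rd κ (cl (l 2)) : ℝ) : ℂ) * qp a b (cl (l 0)) (cl (l 1)) := by
      unfold cn
      push_cast
      ring
    have h2 := hrd l
    rw [e, norm_mul, Complex.norm_real, norm_neg, Real.norm_of_nonneg (by linarith), mul_comm]
    exact mul_le_mul_of_nonneg_right (hqB l) (by linarith)
  -- on large frames `g < 0`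
  have hbigk : ∀ l : Fin 3 → ℝ, r₁ ≤ rd κ (cl (l 2)) → lam (k l) (L \ A n) < 1 / 2 := fun l hl =>
    hbig _ (hcn l) _ hl (hrd l).2
  -- the points of the cube where the cut is defined
  have hAt : ∀ l : Fin 3 → ℝ, lam (k l) (A n) - lam (k l) Lᶜ = 0 →
      lam (k l) (L \ A n) - 1 / 2 = 0 → At M (A n) L (k l) := by
    intro l h1 h2
    have h3 := hsum (k l)
    have h4 : lam (k l) (A n) = 1 / 4 := by linarith
    have h5 : lam (k l) Lᶜ = 1 / 4 := by linarith
    refine ⟨h4, h5, fun X hX => ?_⟩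
    by_contra hcon
    push Not at hcon
    exact hN2 n hnN (k l) X hX.1 hX.2.1 hX.2.2 (by rw [h4]; norm_num) hcon.1 hcon.2
      (by rw [h5]; norm_num)
  refine cube (T := Set (Set (OnePoint ℂ))) (fun l => lam (k l) (A n) - lam (k l) Lᶜ)
    (fun l => lam (k l) (L \ A n) - 1 / 2)
    (((continuous_lam T (hmA n)).comp hkc).sub ((continuous_lam T hmL.compl).comp hkc))
    (((continuous_lam T (hmL.diff (hmA n))).comp hkc).sub continuous_const)
    (fun l => Low M (A n) L (k l)) ?_ ?_ ?_ ?_ ?_ ?_ ?_ ?_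
  · -- `t = 0`
    intro l hl h0
    have h1 : rd κ (cl (l 2)) = 1 := by
      rw [h0, cl_of le_rfl zero_le_one]
      unfold rd
      ring
    have h2 := hbigk l (by rw [h1]; exact hr₁1)
    show lam (k l) (L \ A n) - 1 / 2 < 0
    linarith
  · -- `t = 1`
    intro l hl h0 hf
    have h1 : rd κ (cl (l 2)) = κ := by
      rw [h0, cl_of zero_le_one le_rfl]
      unfold rd
      ring
    have h2 : lam (k l) (A n) < 1 / 8 ∨ lam (k l) Lᶜ < 1 / 8 := by
      have h3 := hκ _ (hcn l)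
      have e : k l = tf (cn a b κ l) κ := by
        show tf (cn a b κ l) (rd κ (cl (l 2))) = _
        rw [h1]
      rw [e]
      exact h3
    have h3 := hsum (k l)
    show 0 < lam (k l) (L \ A n) - 1 / 2
    have hf' : lam (k l) (A n) - lam (k l) Lᶜ = 0 := hf
    rcases h2 with h4 | h4 <;> linarith
  · -- `s = 0`
    intro l hl h0
    by_cases h1 : r₁ ≤ rd κ (cl (l 2))
    · left
      have h2 := hbigk l h1
      show lam (k l) (L \ A n) - 1 / 2 < 0
      linarith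
    · right
      have h2 : qp a b (cl (l 0)) (cl (l 1)) = a := by
        rw [h0, cl_of le_rfl zero_le_one, qp_zero_right]
      have h3 := hcq l
      rw [h2] at h3
      have h4 := hrd l
      have h5 := hAn _ _ (hκ0.trans_le h4.1) (not_le.1 h1)
        (h3.trans (mul_le_mul_of_nonneg_right hBC (by linarith)))
      have h5' : 7 / 8 ≤ lam (k l) (A n) := h5
      have h6 := hsum (k l)
      have h7 := lam_nonneg (k l) (L \ A n)
      show 0 < lam (k l) (A n) - lam (k l) Lᶜ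
      linarith
  · -- `s = 0`, `t = 1`
    intro l hl h0 h0'
    have h1 : rd κ (cl (l 2)) = κ := by
      rw [h0', cl_of zero_le_one le_rfl]
      unfold rd
      ring
    have h2 : qp a b (cl (l 0)) (cl (l 1)) = a := by
      rw [h0, cl_of le_rfl zero_le_one, qp_zero_right]
    have h3 := hcq l
    rw [h2] at h3
    have h4 := hrd l
    have h5 := hAn _ _ (hκ0.trans_le h4.1) (by rw [h1]; exact hκ1)
      (h3.trans (mul_le_mul_of_nonneg_right hBC (by linarith)))
    have h5' : 7 / 8 ≤ lam (k l) (A n) := h5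
    have h6 := hsum (k l)
    have h7 := lam_nonneg (k l) (L \ A n)
    show 0 < lam (k l) (A n) - lam (k l) Lᶜ
    linarith
  · -- `s = 1`
    intro l hl h0
    by_cases h1 : r₁ ≤ rd κ (cl (l 2))
    · left
      have h2 := hbigk l h1
      show lam (k l) (L \ A n) - 1 / 2 < 0
      linarith
    · right
      have h2 : qp a b (cl (l 0)) (cl (l 1)) = b := by
        rw [h0, cl_of zero_le_one le_rfl, qp_one_right]
      have h3 := hcq l
      rw [h2] at h3
      have h4 := hrd l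
      have h5 := hLn _ _ (hκ0.trans_le h4.1) (not_le.1 h1)
        (h3.trans (mul_le_mul_of_nonneg_right hBC (by linarith)))
      have h5' : 7 / 8 ≤ lam (k l) Lᶜ := h5
      have h6 := hsum (k l)
      have h7 := lam_nonneg (k l) (L \ A n)
      show lam (k l) (A n) - lam (k l) Lᶜ < 0
      linarith
  · -- `s = 1`, `t = 1`
    intro l hl h0 h0'
    have h1 : rd κ (cl (l 2)) = κ := by
      rw [h0', cl_of zero_le_one le_rfl]
      unfold rd
      ring
    have h2 : qp a b (cl (l 0)) (cl (l 1)) = b := by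
      rw [h0, cl_of zero_le_one le_rfl, qp_one_right]
    have h3 := hcq l
    rw [h2] at h3
    have h4 := hrd l
    have h5 := hLn _ _ (hκ0.trans_le h4.1) (by rw [h1]; exact hκ1)
      (h3.trans (mul_le_mul_of_nonneg_right hBC (by linarith)))
    have h5' : 7 / 8 ≤ lam (k l) Lᶜ := h5
    have h6 := hsum (k l)
    have h7 := lam_nonneg (k l) (L \ A n)
    show lam (k l) (A n) - lam (k l) Lᶜ < 0
    linarith
  · -- the cut is locally constant
    intro x hx hfx hgx
    refine ⟨{y | ∀ X, MeasurableSet X → lam (k y) X ≤ 2 * lam (k x) X}, ?_, ?_⟩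
    · exact (hkc.tendsto x).eventually (har_two T (k x))
    · intro y hy hyc hfy hgy
      exact low_eq T hM (hA n) hL (hAL n) (hAt x hfx hgx) (hAt y hfy hgy) hy
  · -- the cuts on the two faces are different
    intro x y hx hy hfx hgx hfy hgy h0 h1 he
    obtain ⟨X, hX, Y, hY, hXY, -, hgap, ⟨b1, b2, b3⟩, ⟨b4, b5, b6⟩⟩ := exists_gap T hM hN (hA n) hL
      (hAL n) (hAt x hfx hgx) (hAt y hfy hgy) he.symm
    have hq := hn₀ (hQ2 X hX Y hY hXY hgap (k x) (k y) b1 b2 b3 b4 b5 b6)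
    have hrx := hrd x
    have hry := hrd y
    have hrx0 : 0 < rd κ (cl (x 2)) := hκ0.trans_le hrx.1
    have hry0 : 0 < rd κ (cl (y 2)) := hκ0.trans_le hry.1
    obtain ⟨h2, h3⟩ := near_of_ball hrx0 hry0 _ _ hq
    set r := rd κ (cl (x 2)) with hr
    set r' := rd κ (cl (y 2)) with hr'
    have hsx := cl_of (hx 1).1 (hx 1).2
    have hsy := cl_of (hy 1).1 (hy 1).2
    have e0 : cl (x 0) = 0 := by rw [h0, cl_of le_rfl zero_le_one]
    have e1 : cl (y 0) = 1 := by rw [h1, cl_of zero_le_one le_rfl]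
    have hcx := hcq x
    have hcy := hcq y
    rw [e0, hsx] at hcx
    rw [e1, hsy] at hcy
    rw [← hr] at hcx
    rw [← hr'] at hcy
    -- the distance of the two points
    have hd : ‖qp a b 0 (x 1) - qp a b 1 (y 1)‖ ≤ (C₀ + B + B * C₀) * r := by
      have e : qp a b 0 (x 1) - qp a b 1 (y 1) =
          -(cn a b κ x - qp a b 0 (x 1)) + (cn a b κ y - qp a b 1 (y 1))
            - (cn a b κ y - cn a b κ x) := by ring
      rw [e]
      refine (norm_sub_le _ _).trans ?_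
      have h4 := norm_add_le (-(cn a b κ x - qp a b 0 (x 1))) (cn a b κ y - qp a b 1 (y 1))
      rw [norm_neg] at h4
      have h5 : B * r' ≤ B * (C₀ * r) := mul_le_mul_of_nonneg_left h2 hB0
      have e6 : (C₀ + B + B * C₀) * r = C₀ * r + B * r + B * (C₀ * r) := by ring
      rw [e6]
      linarith
    -- `x` is not a large frame
    have hxs : r < r₁ := by
      by_contra hcon
      have h4 := hbigk x (not_lt.1 hcon)
      have hgx' : lam (k x) (L \ A n) - 1 / 2 = 0 := hgx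
      linarith
    have hatx := hAt x hfx hgx
    rcases qp_sep a b (hx 1).1 (hx 1).2 (hy 1).1 (hy 1).2 with h4 | h4
    · have h5 : ‖cn a b κ x - a‖ ≤ C * r := by
        have e : cn a b κ x - a = (cn a b κ x - qp a b 0 (x 1)) + (qp a b 0 (x 1) - a) := by ring
        rw [e]
        refine (norm_add_le _ _).trans ?_
        have e7 : C * r = B * r + 2 * ((C₀ + B + B * C₀) * r) + r := by rw [hC]; ring
        rw [e7]
        linarith
      have h6 : 7 / 8 ≤ lam (k x) (A n) := hAn _ _ hrx0 hxs h5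
      rw [hatx.a] at h6
      norm_num at h6
    · have h5 : ‖cn a b κ x - b‖ ≤ C * r := by
        have e : cn a b κ x - b = (cn a b κ x - qp a b 0 (x 1)) + (qp a b 0 (x 1) - b) := by ring
        rw [e]
        refine (norm_add_le _ _).trans ?_
        have e7 : C * r = B * r + 2 * ((C₀ + B + B * C₀) * r) + r := by rw [hC]; ring
        rw [e7]
        linarith
      have h6 : 7 / 8 ≤ lam (k x) Lᶜ := hLn _ _ hrx0 hxs h5
      rw [hatx.l] at h6
      norm_num at h6

end Pool.Agent.H81.NS.Cu
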