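import Pool.Agent.H33.NS.Bas

/-!
The gap given by a cut (problem MP_90715c_gt, NoSeparation).
-/

open Matrix Set Filter Topology MeasureTheory

namespace Pool.Agent.H81.NS.Cu

open Pool.Agent.H90.WC Pool.Agent.H81.TG Pool.Agent.H81.NS.B

variable {Γ : Subgroup G} {U : Set (OnePoint ℂ)} {M : Set (Set (OnePoint ℂ))}
  {A L X Y : Set (OnePoint ℂ)} {k k' : G}

/-- The elements of `M` between `A` and `L`. -/
def Mid (M : Set (Set (OnePoint ℂ))) (A L : Set (OnePoint ℂ)) : Set (Set (OnePoint ℂ)) :=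
  {X | X ∈ M ∧ Sub A X ∧ Sub X L}

lemma lam_one (X : Set (OnePoint ℂ)) : lam 1 X = (mu X).toReal := by
  unfold lam
  congr 2
  ext x
  rw [mem_preimage, act_one]

lemma Mid.comp (T : Tool) (hM : MinF Γ U M) (hN : ∀ X ∈ M, ∀ Y ∈ M, Nst X Y) (hA : A ∈ M)
    (hL : L ∈ M) (hX : X ∈ Mid M A L) (hY : Y ∈ Mid M A L) : Sub X Y ∨ Sub Y X := by
  rcases hN X hX.1 Y hY.1 with h | h | h | h
  · exact Or.inl h
  · exact Or.inr h
  · exfalso
    have h1 : Sub A Aᶜ := sub_trans T hX.2.1 (sub_trans T h (sub_compl.2 hY.2.1))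
    unfold Sub at h1
    rw [sdiff_compl, inter_self] at h1
    exact (hM.leaf A hA).pos.ne' h1
  · exfalso
    have h1 : Sub Lᶜ L := sub_trans T (sub_compl.2 hX.2.2) (sub_trans T h hY.2.2)
    unfold Sub at h1
    rw [sdiff_eq, inter_self] at h1
    exact (hM.leaf L hL).cpos.ne' h1

lemma Mid.compl (hM : MinF Γ U M) (hX : X ∈ Mid M A L) : Xᶜ ∈ Mid M Lᶜ Aᶜ :=
  ⟨hM.compl X hX.1, sub_compl.2 hX.2.2, sub_compl.2 hX.2.1⟩

/-- Finite unions of elements of a chain. -/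
lemma acc_sub (T : Tool) (f : ℕ → Set (OnePoint ℂ)) (h : ∀ i j, Sub (f i) (f j) ∨ Sub (f j) (f i))
    (J : ℕ) : ∃ j, Sub (accumulate f J) (f j) := by
  induction J with
  | zero =>
    refine ⟨0, ?_⟩
    rw [accumulate_zero_nat]
    exact sub_refl _
  | succ J ih =>
    obtain ⟨j, hj⟩ := ih
    rw [accumulate_succ]
    have key : ∀ m, Sub (accumulate f J) (f m) → Sub (f (J + 1)) (f m) →
        Sub (accumulate f J ∪ f (J + 1)) (f m) := by
      intro m h1 h2
      unfold Sub at h1 h2 ⊢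
      rw [union_sdiff_distrib]
      refine le_antisymm ((lam_union_le T 1 _ _).trans ?_) (lam_nonneg _ _)
      rw [h1, h2, add_zero]
    rcases h j (J + 1) with h1 | h1
    · exact ⟨J + 1, key _ (sub_trans T hj h1) (sub_refl _)⟩
    · exact ⟨j, key _ hj h1⟩

lemma sub_iUnion (T : Tool) {f : ℕ → Set (OnePoint ℂ)} (h : ∀ i, Sub (f i) Y) :
    Sub (⋃ i, f i) Y := by
  have := prob T
  unfold Sub at h ⊢
  rw [iUnion_sdiff, lam_one]
  have h1 : ∀ i, mu (f i \ Y) = 0 := by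
    intro i
    have := h i
    rw [lam_one, ENNReal.toReal_eq_zero_iff] at this
    rcases this with h2 | h2
    · exact h2
    · exact absurd h2 (measure_ne_top _ _)
  rw [measure_iUnion_null h1]
  rfl

/-- The supremum of a set of elements between `A` and `L`. -/
theorem exists_sup (T : Tool) (hM : MinF Γ U M) (hN : ∀ X ∈ M, ∀ Y ∈ M, Nst X Y) (hA : A ∈ M)
    (hL : L ∈ M) {P : Set (Set (OnePoint ℂ))} (hP : P ⊆ Mid M A L) (hne : P.Nonempty) :
    ∃ S ∈ Mid M A L, (∀ X ∈ P, Sub X S) ∧ ∀ ε > (0 : ℝ), ∃ X ∈ P, lam 1 (S \ X) < ε := by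
  have hpr := prob T
  have hms : ∀ X ∈ P, MeasurableSet X := fun X hX => (hM.leaf X (hP hX).1).meas
  set s : ℝ := sSup (lam 1 '' P) with hs
  have hbdd : BddAbove (lam 1 '' P) := ⟨1, by
    rintro _ ⟨X, -, rfl⟩
    exact lam_le_one T 1 X⟩
  have hle : ∀ X ∈ P, lam 1 X ≤ s := fun X hX => le_csSup hbdd (mem_image_of_mem _ hX)
  have hex : ∀ i : ℕ, ∃ X ∈ P, s - 1 / ((i : ℝ) + 1) < lam 1 X := by
    intro i
    have h1 : s - 1 / ((i : ℝ) + 1) < s := by
      have : (0 : ℝ) < 1 / ((i : ℝ) + 1) := by positivity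
      linarith
    obtain ⟨_, ⟨X, hX, rfl⟩, h2⟩ := exists_lt_of_lt_csSup (hne.image _) h1
    exact ⟨X, hX, h2⟩
  choose f hf hf2 using hex
  have hmf : ∀ i, MeasurableSet (f i) := fun i => hms _ (hf i)
  have hcomp : ∀ i j, Sub (f i) (f j) ∨ Sub (f j) (f i) := fun i j =>
    Mid.comp T hM hN hA hL (hP (hf i)) (hP (hf j))
  set S : Set (OnePoint ℂ) := ⋃ i, f i with hS
  have hmS : MeasurableSet S := MeasurableSet.iUnion hmf
  have hSL : Sub S L := sub_iUnion T fun i => (hP (hf i)).2.2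
  have hfS : ∀ i, f i ⊆ S := fun i => subset_iUnion f i
  have hAS : Sub A S := sub_trans T (hP (hf 0)).2.1 (sub_of_subset (hfS 0))
  have hmL := (hM.leaf L hL).meas
  have hdist : ∀ i : ℕ, lam 1 (S \ f i) ≤ 1 / ((i : ℝ) + 1) := by
    intro i
    rw [hS, iUnion_sdiff, lam_one, measure_iUnion_eq_iSup_accumulate]
    refine ENNReal.toReal_le_of_le_ofReal (by positivity) (iSup_le fun J => ?_)
    obtain ⟨j, hj⟩ := acc_sub T f hcomp J
    have h1 : lam 1 (accumulate f J \ f i) ≤ 1 / ((i : ℝ) + 1) := by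
      refine (lam_diff_tri T 1 (accumulate f J) (f j) (f i)).trans ?_
      have h2 : lam 1 (accumulate f J \ f j) = 0 := hj
      rw [h2, zero_add]
      rcases hcomp j i with h3 | h3
      · have h4 : lam 1 (f j \ f i) = 0 := h3
        rw [h4]
        positivity
      · rw [lam_diff_of_sub T (hmf i) (hmf j) h3]
        have := hle _ (hf j)
        have := hf2 i
        linarith
    have h2 : accumulate (fun j => f j \ f i) J ⊆ accumulate f J \ f i := by
      intro x hx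
      rw [mem_accumulate] at hx
      obtain ⟨y, hy, hx⟩ := hx
      exact ⟨mem_accumulate.2 ⟨y, hy, hx.1⟩, hx.2⟩
    refine (measure_mono h2).trans ?_
    rw [← ENNReal.ofReal_toReal (measure_ne_top mu (accumulate f J \ f i))]
    rw [lam_one] at h1
    exact ENNReal.ofReal_le_ofReal h1
  have hlim : ∀ ε > (0 : ℝ), ∃ X ∈ P, lam 1 (S \ X) < ε := by
    intro ε hε
    obtain ⟨i, hi⟩ := exists_nat_one_div_lt hε
    exact ⟨f i, hf i, (hdist i).trans_lt hi⟩
  have hposS : 0 < lam 1 S :=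
    (hM.leaf A hA).pos.trans_le (lam_le_of_sub T (hM.leaf A hA).meas hmS hAS 1)
  have hcposS : 0 < lam 1 Sᶜ :=
    (hM.leaf L hL).cpos.trans_le
      (lam_le_of_sub T hmL.compl hmS.compl (sub_compl.2 hSL) 1)
  have hSM : S ∈ M := by
    refine hM.closed S hmS hposS hcposS fun ε hε => ?_
    obtain ⟨i, hi⟩ := exists_nat_one_div_lt hε
    refine ⟨f i, (hP (hf i)).1, ?_⟩
    unfold ds
    rw [lam_sd_eq T 1 hmS (hmf i)]
    have h2 : lam 1 (f i \ S) = 0 := sub_of_subset (hfS i)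
    rw [h2, add_zero]
    exact (hdist i).trans_lt hi
  have hSmid : S ∈ Mid M A L := ⟨hSM, hAS, hSL⟩
  refine ⟨S, hSmid, fun X hX => ?_, hlim⟩
  rcases Mid.comp T hM hN hA hL (hP hX) hSmid with h | h
  · exact h
  · have h1 : s ≤ lam 1 S := by
      refine le_of_forall_pos_lt_add fun ε hε => ?_
      obtain ⟨i, hi⟩ := exists_nat_one_div_lt hε
      have h2 := hf2 i
      have h3 := lam_mono T 1 (hfS i)
      linarith
    have h2 := hle X hX
    have h3 := lam_diff_of_sub T hmS (hms X hX) h 1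
    have h4 := lam_nonneg 1 (X \ S)
    exact le_antisymm (by linarith) h4

/-- The infimum of a set of elements between `A` and `L`. -/
theorem exists_inf (T : Tool) (hM : MinF Γ U M) (hN : ∀ X ∈ M, ∀ Y ∈ M, Nst X Y) (hA : A ∈ M)
    (hL : L ∈ M) {P : Set (Set (OnePoint ℂ))} (hP : P ⊆ Mid M A L) (hne : P.Nonempty) :
    ∃ S ∈ Mid M A L, (∀ X ∈ P, Sub S X) ∧ ∀ ε > (0 : ℝ), ∃ X ∈ P, lam 1 (X \ S) < ε := by
  have hP' : Compl.compl '' P ⊆ Mid M Lᶜ Aᶜ := by
    rintro _ ⟨X, hX, rfl⟩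
    exact Mid.compl hM (hP hX)
  obtain ⟨S, hS, h1, h2⟩ := exists_sup T hM hN (hM.compl L hL) (hM.compl A hA) hP' (hne.image _)
  refine ⟨Sᶜ, ?_, fun X hX => ?_, fun ε hε => ?_⟩
  · have := Mid.compl hM hS
    rwa [compl_compl, compl_compl] at this
  · exact sub_compl_left.1 (h1 Xᶜ (mem_image_of_mem _ hX))
  · obtain ⟨_, ⟨X, hX, rfl⟩, h3⟩ := h2 ε hε
    refine ⟨X, hX, ?_⟩
    rwa [sdiff_compl, inter_comm, ← sdiff_compl] at h3

/-- The elements which are low at `k`. -/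
def Low (M : Set (Set (OnePoint ℂ))) (A L : Set (OnePoint ℂ)) (k : G) :
    Set (Set (OnePoint ℂ)) := {X | X ∈ Mid M A L ∧ lam k (X \ A) < 1 / 64}

/-- The frame `k` sees `A` and the complement of `L` with measure one quarter, and no middle
leaf. -/
structure At (M : Set (Set (OnePoint ℂ))) (A L : Set (OnePoint ℂ)) (k : G) : Prop where
  a : lam k A = 1 / 4
  l : lam k Lᶜ = 1 / 4
  dich : ∀ X ∈ Mid M A L, lam k (X \ A) < 1 / 64 ∨ lam k (L \ X) < 1 / 64

lemma sum_eq (T : Tool) (hA : MeasurableSet A) (hL : MeasurableSet L) (hAL : Sub A L) (k : G) :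
    lam k A + lam k (L \ A) + lam k Lᶜ = 1 := by
  rw [lam_diff_of_sub T hA hL hAL, lam_compl T k hL]
  ring

lemma At.half (T : Tool) (hA : MeasurableSet A) (hL : MeasurableSet L) (hAL : Sub A L)
    (h : At M A L k) : lam k (L \ A) = 1 / 2 := by
  have h1 := sum_eq T hA hL hAL k
  rw [h.a, h.l] at h1
  linarith

lemma At.not_both (T : Tool) (hA : MeasurableSet A) (hL : MeasurableSet L) (hAL : Sub A L)
    (h : At M A L k) (X : Set (OnePoint ℂ)) : 1 / 2 ≤ lam k (X \ A) + lam k (L \ X) := by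
  rw [← h.half T hA hL hAL]
  have := lam_diff_tri T k L X A
  linarith

lemma low_eq (T : Tool) (hM : MinF Γ U M) (hA : A ∈ M) (hL : L ∈ M) (hAL : Sub A L)
    (h : At M A L k) (h' : At M A L k')
    (h2 : ∀ X, MeasurableSet X → lam k' X ≤ 2 * lam k X) : Low M A L k' = Low M A L k := by
  have hmA := (hM.leaf A hA).meas
  have hmL := (hM.leaf L hL).meas
  ext X
  constructor
  · rintro ⟨hX, h3⟩
    refine ⟨hX, ?_⟩
    rcases h.dich X hX with h4 | h4
    · exact h4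
    · exfalso
      have hmX := (hM.leaf X hX.1).meas
      have h5 := h2 _ (hmL.diff hmX)
      have h6 := h'.not_both T hmA hmL hAL X
      linarith
  · rintro ⟨hX, h3⟩
    refine ⟨hX, ?_⟩
    rcases h'.dich X hX with h4 | h4
    · exact h4
    · exfalso
      have hmX := (hM.leaf X hX.1).meas
      have h5 := h2 _ (hmX.diff hmA)
      have h6 := h'.not_both T hmA hmL hAL X
      linarith

lemma lam_le_of_one (T : Tool) (k : G) {a : ℝ} {Z : Set (OnePoint ℂ)}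
    (h : ∀ ε > (0 : ℝ), ∃ X, MeasurableSet X ∧ lam 1 X < ε ∧ lam k Z ≤ lam k X + a) :
    lam k Z ≤ a := by
  obtain ⟨c, hc1, hc⟩ := T.har {k} isCompact_singleton
  refine le_of_forall_pos_le_add fun ε hε => ?_
  obtain ⟨X, hX, h1, h2⟩ := h (ε / c) (by positivity)
  have h3 := hc 1 k rfl X hX
  rw [one_mul] at h3
  have h4 : c * lam 1 X ≤ ε := by
    rw [lt_div_iff₀ (by linarith)] at h1
    linarith
  linarith

/-- Two frames with the same cut: the gap at the cut is seen by both. -/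
theorem exists_gap (T : Tool) (hM : MinF Γ U M) (hN : ∀ X ∈ M, ∀ Y ∈ M, Nst X Y) (hA : A ∈ M)
    (hL : L ∈ M) (hAL : Sub A L) (h : At M A L k) (h' : At M A L k')
    (he : Low M A L k' = Low M A L k) :
    ∃ X ∈ M, ∃ Y ∈ M, Sub X Y ∧ ¬ Sub Y X ∧
      (∀ Z ∈ M, Sub X Z → Sub Z Y → Sub Z X ∨ Sub Y Z) ∧
      (1 / 8 ≤ lam k X ∧ 1 / 8 ≤ lam k (Y \ X) ∧ 1 / 8 ≤ lam k Yᶜ) ∧
      (1 / 8 ≤ lam k' X ∧ 1 / 8 ≤ lam k' (Y \ X) ∧ 1 / 8 ≤ lam k' Yᶜ) := by
  have hmA := (hM.leaf A hA).meas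
  have hmL := (hM.leaf L hL).meas
  have hAmid : A ∈ Mid M A L := ⟨hA, sub_refl _, hAL⟩
  have hLmid : L ∈ Mid M A L := ⟨hL, hAL, sub_refl _⟩
  have hAlow : A ∈ Low M A L k := by
    refine ⟨hAmid, ?_⟩
    rw [sdiff_self, lam_empty]
    norm_num
  have hLhigh : L ∈ Mid M A L \ Low M A L k := by
    refine ⟨hLmid, fun hl => ?_⟩
    have h1 := hl.2
    rw [h.half T hmA hmL hAL] at h1
    norm_num at h1
  obtain ⟨X, hX, hX1, hX2⟩ := exists_sup T hM hN hA hL (P := Low M A L k) (fun Z hZ => hZ.1)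
    ⟨A, hAlow⟩
  obtain ⟨Y, hY, hY1, hY2⟩ := exists_inf T hM hN hA hL (P := Mid M A L \ Low M A L k)
    (fun Z hZ => hZ.1) ⟨L, hLhigh⟩
  have hmX := (hM.leaf X hX.1).meas
  have hmY := (hM.leaf Y hY.1).meas
  -- `X` is low
  have hXlow : X ∈ Low M A L k := by
    refine ⟨hX, ?_⟩
    have h1 : lam k (X \ A) ≤ 1 / 64 := by
      refine lam_le_of_one T k fun ε hε => ?_
      obtain ⟨Z, hZ, h2⟩ := hX2 ε hε
      refine ⟨X \ Z, hmX.diff (hM.leaf Z hZ.1.1).meas, h2, ?_⟩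
      have h3 := lam_diff_tri T k X Z A
      have h4 := hZ.2
      linarith
    rcases h.dich X hX with h2 | h2
    · exact h2
    · exfalso
      have := h.not_both T hmA hmL hAL X
      linarith
  -- `Y` is high
  have hYh : lam k (L \ Y) ≤ 1 / 64 := by
    refine lam_le_of_one T k fun ε hε => ?_
    obtain ⟨Z, hZ, h2⟩ := hY2 ε hε
    refine ⟨Z \ Y, (hM.leaf Z hZ.1.1).meas.diff hmY, h2, ?_⟩
    have h3 := lam_diff_tri T k L Z Y
    have h4 : lam k (L \ Z) < 1 / 64 := by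
      rcases h.dich Z hZ.1 with h5 | h5
      · exact absurd ⟨hZ.1, h5⟩ hZ.2
      · exact h5
    linarith
  have hYnl : Y ∉ Low M A L k := by
    intro hl
    have h1 := h.not_both T hmA hmL hAL Y
    have h2 := hl.2
    linarith
  have hYX : ¬ Sub Y X := by
    intro hs
    refine hYnl ⟨hY, ?_⟩
    have h1 := lam_diff_tri T k Y X A
    rw [sub_lam T hmY hmX hs k, zero_add] at h1
    exact h1.trans_lt hXlow.2
  have hXY : Sub X Y := (Mid.comp T hM hN hA hL hX hY).resolve_right hYX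
  have bounds : ∀ k₁ : G, At M A L k₁ → Low M A L k₁ = Low M A L k →
      1 / 8 ≤ lam k₁ X ∧ 1 / 8 ≤ lam k₁ (Y \ X) ∧ 1 / 8 ≤ lam k₁ Yᶜ := by
    intro k₁ hk he₁
    refine ⟨?_, ?_, ?_⟩
    · have h1 := lam_le_of_sub T hmA hmX hX.2.1 k₁
      rw [hk.a] at h1
      linarith
    · have h1 : X ∈ Low M A L k₁ := by rw [he₁]; exact hXlow
      have h2 : Y ∉ Low M A L k₁ := by rw [he₁]; exact hYnl
      have h3 : lam k₁ (L \ Y) < 1 / 64 := by
        rcases hk.dich Y hY with h5 | h5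
        · exact absurd ⟨hY, h5⟩ h2
        · exact h5
      have h4 := hk.not_both T hmA hmL hAL Y
      have h5 := lam_diff_tri T k₁ Y X A
      have h6 := h1.2
      linarith
    · have h1 := lam_le_of_sub T hmL.compl hmY.compl (sub_compl.2 hY.2.2) k₁
      rw [hk.l] at h1
      linarith
  refine ⟨X, hX.1, Y, hY.1, hXY, hYX, ?_, bounds k h rfl, bounds k' h' he⟩
  intro Z hZ h1 h2
  have hZm : Z ∈ Mid M A L := ⟨hZ, sub_trans T hX.2.1 h1, sub_trans T h2 hY.2.2⟩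
  by_cases hl : Z ∈ Low M A L k
  · exact Or.inl (hX1 Z hl)
  · exact Or.inr (hY1 Z ⟨hZm, hl⟩)

end Pool.Agent.H81.NS.Cu
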