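import Pool.Agent.H33.NS.Gap
import Pool.Agent.H98.NS.Cut

/-!
The cube of frames (problem MP_90715c_gt, NoSeparation).
-/

open Matrix Set Filter Topology MeasureTheory

namespace Pool.Agent.H81.NS.Cu

open Pool.Agent.H90.WC Pool.Agent.H81.TG Pool.Agent.H81.NS.B

/-! ### The frames `tf z r` -/

lemma tf_pos {r : ℝ} (hr : 0 < r) (z : ℂ) : tf z r = fr z r hr := by
  unfold tf
  rw [dif_pos hr]

lemma sqrt_ne {r : ℝ} (hr : 0 < r) : ((Real.sqrt r : ℝ) : ℂ) ≠ 0 := by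
  exact_mod_cast (Real.sqrt_pos.2 hr).ne'

lemma sqrt_sq {r : ℝ} (hr : 0 < r) :
    ((Real.sqrt r : ℝ) : ℂ) * ((Real.sqrt r : ℝ) : ℂ) = (r : ℂ) := by
  rw [← Complex.ofReal_mul, Real.mul_self_sqrt hr.le]

/-- Products of frames: the entries `00` and `01`. -/
lemma tf_inv_mul {r r' : ℝ} (hr : 0 < r) (hr' : 0 < r') (z z' : ℂ) {h : G}
    (hh : h = (tf z r)⁻¹ * tf z' r') :
    h 0 0 * h 0 0 * (r : ℂ) = (r' : ℂ) ∧ h 0 0 * h 0 1 * (r : ℂ) = z' - z := by
  have e0 : h 0 0 = ((Real.sqrt r : ℝ) : ℂ)⁻¹ * ((Real.sqrt r' : ℝ) : ℂ) := by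
    rw [hh, mul_00, inv_00, inv_01, tf_pos hr, tf_pos hr', fr_00, fr_10, fr_01, fr_11]
    ring
  have e1 : h 0 1 = ((Real.sqrt r : ℝ) : ℂ)⁻¹ * (z' / ((Real.sqrt r' : ℝ) : ℂ))
      - z / ((Real.sqrt r : ℝ) : ℂ) * ((Real.sqrt r' : ℝ) : ℂ)⁻¹ := by
    rw [hh, mul_01, inv_00, inv_01, tf_pos hr, tf_pos hr', fr_01, fr_01, fr_11, fr_11]
    ring
  have n1 := sqrt_ne hr
  have n2 := sqrt_ne hr'
  have s1 := sqrt_sq hr
  have s2 := sqrt_sq hr'
  constructor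
  · rw [e0, ← s1, ← s2]
    field_simp
  · rw [e0, e1, ← s1]
    field_simp

/-- Frames whose quotient lies in a bounded set are close at their scale. -/
lemma near_of_ball {r r' : ℝ} (hr : 0 < r) (hr' : 0 < r') (z z' : ℂ) {n : ℕ}
    (h : (tf z r)⁻¹ * tf z' r' ∈ ball n) :
    r' ≤ (n : ℝ) ^ 2 * r ∧ ‖z' - z‖ ≤ (n : ℝ) ^ 2 * r := by
  obtain ⟨h1, h2⟩ := tf_inv_mul hr hr' z z' rfl
  have b0 := h 0 0
  have b1 := h 0 1
  have n0 : (0 : ℝ) ≤ n := Nat.cast_nonneg n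
  constructor
  · have h3 := congrArg norm h1
    rw [norm_mul, norm_mul, Complex.norm_real, Complex.norm_real, Real.norm_of_nonneg hr.le,
      Real.norm_of_nonneg hr'.le] at h3
    rw [← h3, sq]
    gcongr
  · rw [← h2, norm_mul, norm_mul, Complex.norm_real, Real.norm_of_nonneg hr.le, sq]
    gcongr

/-- Continuous families of frames. -/
lemma continuous_tf {α : Type*} [TopologicalSpace α] {z : α → ℂ} {r : α → ℝ}
    (hz : Continuous z) (hr : Continuous r) (hr0 : ∀ x, 0 < r x) :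
    Continuous fun x => tf (z x) (r x) := by
  have hs : Continuous fun x => ((Real.sqrt (r x) : ℝ) : ℂ) :=
    Complex.continuous_ofReal.comp (Real.continuous_sqrt.comp hr)
  have hs0 : ∀ x, ((Real.sqrt (r x) : ℝ) : ℂ) ≠ 0 := fun x => sqrt_ne (hr0 x)
  rw [continuous_iff_continuousAt]
  intro x
  refine tendsto_iff.2 fun i j => ?_
  have e : ∀ y, tf (z y) (r y) i j = (!![((Real.sqrt (r y) : ℝ) : ℂ),
      z y / ((Real.sqrt (r y) : ℝ) : ℂ); 0, ((Real.sqrt (r y) : ℝ) : ℂ)⁻¹] :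
      Matrix (Fin 2) (Fin 2) ℂ) i j := by
    intro y
    rw [tf_pos (hr0 y)]
    rfl
  simp only [e]
  fin_cases i <;> fin_cases j
  · exact hs.tendsto x
  · exact (hz.div hs hs0).tendsto x
  · exact tendsto_const_nhds
  · exact (hs.inv₀ hs0).tendsto x

/-- The frames with bounded centre and radius bounded below form a bounded set. -/
lemma tf_mem_ball {B r₀ : ℝ} (hr₀ : 0 < r₀) : ∃ n : ℕ, ∀ z : ℂ, ‖z‖ ≤ B → ∀ r : ℝ, r₀ ≤ r →
    r ≤ 1 → tf z r ∈ ball n := by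
  obtain ⟨n, hn⟩ := exists_nat_ge (1 + (1 + |B|) / Real.sqrt r₀)
  refine ⟨n, fun z hz r h1 h2 i j => ?_⟩
  have hr : 0 < r := hr₀.trans_le h1
  have s0 := Real.sqrt_pos.2 hr₀
  have s1 := Real.sqrt_pos.2 hr
  have s2 : Real.sqrt r₀ ≤ Real.sqrt r := Real.sqrt_le_sqrt h1
  have s3 : Real.sqrt r ≤ 1 := Real.sqrt_le_one.2 h2
  have b0 := abs_nonneg B
  have hB : ‖z‖ ≤ |B| := hz.trans (le_abs_self B)
  have t0 : 0 ≤ (1 + |B|) / Real.sqrt r₀ := by positivity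
  have t1 : |B| / Real.sqrt r₀ ≤ (1 + |B|) / Real.sqrt r₀ := by
    gcongr
    linarith
  have t2 : 1 / Real.sqrt r₀ ≤ (1 + |B|) / Real.sqrt r₀ := by
    gcongr
    linarith
  rw [tf_pos hr]
  have nn : ‖((Real.sqrt r : ℝ) : ℂ)‖ = Real.sqrt r := by
    rw [Complex.norm_real, Real.norm_of_nonneg s1.le]
  fin_cases i <;> fin_cases j
  · show ‖((Real.sqrt r : ℝ) : ℂ)‖ ≤ n
    rw [nn]
    linarith
  · show ‖z / ((Real.sqrt r : ℝ) : ℂ)‖ ≤ n
    rw [norm_div, nn]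
    have : ‖z‖ / Real.sqrt r ≤ |B| / Real.sqrt r₀ := by gcongr
    linarith
  · show ‖(0 : ℂ)‖ ≤ n
    rw [norm_zero]
    positivity
  · show ‖((Real.sqrt r : ℝ) : ℂ)⁻¹‖ ≤ n
    rw [norm_inv, nn, inv_eq_one_div]
    have : 1 / Real.sqrt r ≤ 1 / Real.sqrt r₀ := by gcongr
    linarith

/-! ### Continuity of the visual measures -/

lemma continuous_lam (T : Tool) {X : Set (OnePoint ℂ)} (hX : MeasurableSet X) :
    Continuous fun k => lam k X := by
  rw [continuous_iff_continuousAt]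
  intro k₀
  rw [ContinuousAt, Metric.tendsto_nhds]
  intro ε hε
  obtain ⟨V, hV, h⟩ := T.har1 (ε / 2) (by positivity)
  have c1 : Tendsto (fun k : G => k₀⁻¹ * k) (𝓝 k₀) (𝓝 1) := by
    have : Continuous fun k : G => k₀⁻¹ * k := continuous_const.mul continuous_id
    have h2 := this.tendsto k₀
    rwa [inv_mul_cancel] at h2
  have c2 : Tendsto (fun k : G => k⁻¹ * k₀) (𝓝 k₀) (𝓝 1) := by
    have : Continuous fun k : G => k⁻¹ * k₀ := continuous_inv.mul continuous_const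
    have h2 := this.tendsto k₀
    rwa [inv_mul_cancel] at h2
  filter_upwards [c1 hV, c2 hV] with k hk1 hk2
  have h1 := h k₀ _ hk1 X hX
  have h2 := h k _ hk2 X hX
  rw [mul_inv_cancel_left] at h1 h2
  have l1 := lam_le_one T k₀ X
  have l2 := lam_le_one T k X
  rw [Real.dist_eq, abs_lt]
  constructor <;> nlinarith

/-- A neighbourhood with Harnack constant two. -/
lemma har_two (T : Tool) (k₀ : G) : ∀ᶠ k in 𝓝 k₀, ∀ X, MeasurableSet X →
    lam k X ≤ 2 * lam k₀ X := by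
  obtain ⟨V, hV, h⟩ := T.har1 1 one_pos
  have c1 : Tendsto (fun k : G => k₀⁻¹ * k) (𝓝 k₀) (𝓝 1) := by
    have : Continuous fun k : G => k₀⁻¹ * k := continuous_const.mul continuous_id
    have h2 := this.tendsto k₀
    rwa [inv_mul_cancel] at h2
  filter_upwards [c1 hV] with k hk X hX
  have h1 := h k₀ _ hk X hX
  rw [mul_inv_cancel_left] at h1
  linarith

/-! ### Small frames -/

/-- In small frames with bounded centres one does not see both of two separated sets. -/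
lemma exists_small (T : Tool) {A L E F : Set (OnePoint ℂ)} (hA : MeasurableSet A)
    (hL : MeasurableSet L) (hE : IsClosed E) (hF : IsClosed F) (hd : Disjoint E F)
    (hAE : Sub A E) (hLF : Sub Lᶜ F) (B : ℝ) {r₀ : ℝ} (hr₀ : 0 < r₀) :
    ∃ r : ℝ, 0 < r ∧ r < r₀ ∧ ∀ z : ℂ, ‖z‖ ≤ B → lam (tf z r) A < 1 / 8 ∨
      lam (tf z r) Lᶜ < 1 / 8 := by
  by_contra hcon
  push Not at hcon
  have hr : ∀ j : ℕ, 0 < r₀ / ((j : ℝ) + 2) ∧ r₀ / ((j : ℝ) + 2) < r₀ := by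
    intro j
    refine ⟨by positivity, ?_⟩
    rw [div_lt_iff₀ (by positivity)]
    have : (0 : ℝ) ≤ j := Nat.cast_nonneg j
    nlinarith
  choose z hz h1 h2 using fun j : ℕ => hcon (r₀ / ((j : ℝ) + 2)) (hr j).1 (hr j).2
  have hcoc : Tendsto (fun j : ℕ => tf (z j) (r₀ / ((j : ℝ) + 2))) (hyperfilter ℕ : Filter ℕ)
      (cocompact G) := by
    refine Tendsto.mono_left ?_ Nat.hyperfilter_le_atTop
    rw [hasBasis_cocompact.tendsto_right_iff]
    intro C hC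
    obtain ⟨n, hn⟩ := subset_ball hC
    obtain ⟨m, hm⟩ := exists_nat_gt (r₀ * (n : ℝ) ^ 2)
    filter_upwards [eventually_ge_atTop m] with j hj hjC
    have h3 := hn hjC 1 1
    rw [tf_pos (hr j).1, fr_11, norm_inv, Complex.norm_real,
      Real.norm_of_nonneg (Real.sqrt_nonneg _)] at h3
    have s0 := Real.sqrt_pos.2 (hr j).1
    have s1 := Real.sq_sqrt (hr j).1.le
    have hj2 : (m : ℝ) ≤ j := Nat.cast_le.2 hj
    have h4 : 1 ≤ (n : ℝ) * Real.sqrt (r₀ / ((j : ℝ) + 2)) := by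
      rw [inv_le_iff_one_le_mul₀ s0] at h3
      linarith
    have h5 : 1 ≤ (n : ℝ) ^ 2 * (r₀ / ((j : ℝ) + 2)) := by
      rw [← s1, ← mul_pow]
      exact one_le_pow₀ h4
    rw [mul_div_assoc', le_div_iff₀ (by positivity), one_mul] at h5
    nlinarith
  obtain ⟨q, hq⟩ := T.inf (hyperfilter ℕ) _ hcoc
  by_cases hqE : q ∈ E
  · have hqF : q ∉ F := fun h => Set.disjoint_left.1 hd hqE h
    have h3 := hq F hF hqF
    have h4 : ∀ j : ℕ, 1 / 8 ≤ lam (tf (z j) (r₀ / ((j : ℝ) + 2))) F := fun j =>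
      (h2 j).trans (lam_le_of_sub T hL.compl hF.measurableSet hLF _)
    have := ge_of_tendsto' h3 h4
    norm_num at this
  · have h3 := hq E hE hqE
    have h4 : ∀ j : ℕ, 1 / 8 ≤ lam (tf (z j) (r₀ / ((j : ℝ) + 2))) E := fun j =>
      (h1 j).trans (lam_le_of_sub T hA hE.measurableSet hAE _)
    have := ge_of_tendsto' h3 h4
    norm_num at this

end Pool.Agent.H81.NS.Cu
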